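import Pool.Agent.E8helper14.JM.Main

/-!
# The hypothesis `J₋₁(T) ≪ T` and the variance of the Möbius function in the blocks `((1 - h) u, u]`

Let `M(u) = ∑_{n ≤ u} μ(n)`, `J(T) = ∑_{0 < γ ≤ T} 1 / |ζ'(ρ)|²`, and for `0 < h < 1`

`B_h(x) = ∫_1^x ((M(u) - M((1 - h) u)) / u)² du`.

Under the Riemann Hypothesis, if all zeros are simple and `J(T) ≪ T` then the weak Mertens hypothesis holds (Ng).
We determine what this sufficient condition says about `M`. Unconditionally: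

* for every `0 < β < 2`, [the Riemann Hypothesis holds, all nontrivial zeros are simple and `J(T) ≪ T^(2-β)`] is
  equivalent to [`B_h(x) ≤ C h^β log x` for each `0 < h < 1` and all `x ≥ x_0(h)`, `C` independent of `h`];
  it is enough to have this for all small `h` and arbitrarily large `x`. For `β = 1` the left-hand side is Ng's
  hypothesis;
* [the Riemann Hypothesis holds, all nontrivial zeros are simple and `J(T) ~ c T`] is equivalent to
  [`B_h(x) / log x → V(h)` as `x → ∞` for each `h`, and `V(h) ~ 2 π c h` as `h → 0`]. For `c = 3 / π³` the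
  left-hand side is the conjecture of Gonek and Hejhal, and `2 π c = 6 / π²`: so it says exactly that the variance
  of the sums of `μ` over the blocks `((1 - h) u, u]` is asymptotically that of random signs on the squarefree
  integers;
* the weak Mertens hypothesis itself is equivalent to the existence of the limits `V(h)`, and then `V(h) → 0`.

The proof starts from the formula for `V(h)` as a sum over the zeros; an Abelian and a Tauberian theorem (through
the representation of a smooth even function that vanishes to the second order at `0` as a superposition of the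
functions `1 - cos(s x)`) relate it to `J(T)`.
-/

set_option autoImplicit false

open Filter Topology MeasureTheory

namespace Pool.Agent.Results.MP_323ce2_nt.BlockVarianceH14

/-- the Mertens function -/
noncomputable def M (u : ℝ) : ℝ := ∑ n ∈ Finset.Icc 1 ⌊u⌋₊, ((ArithmeticFunction.moebius n : ℤ) : ℝ)

/-- the weak Mertens hypothesis -/
def WeakMertens : Prop := ∃ C : ℝ, ∀ x : ℝ, 2 ≤ x → ∫ u in (1:ℝ)..x, (M u / u) ^ 2 ≤ C * Real.log x

/-- the nontrivial zeros of the Riemann zeta function -/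
def NT : Set ℂ := {s : ℂ | riemannZeta s = 0 ∧ 0 < s.re ∧ s.re < 1}

/-- the Riemann Hypothesis holds and all nontrivial zeros are simple -/
def RHSimple : Prop := ∀ ρ ∈ NT, ρ.re = 1 / 2 ∧ deriv riemannZeta ρ ≠ 0

/-- `J(T) = ∑_{0 < γ ≤ T} 1 / |ζ'(ρ)|²` (a finite sum) -/
noncomputable def J (T : ℝ) : ℝ :=
  ∑' ρ : NT, if 0 < (ρ : ℂ).im ∧ (ρ : ℂ).im ≤ T then 1 / ‖deriv riemannZeta ρ‖ ^ 2 else 0

/-- `B_h(x) = ∫_1^x ((M(u) - M((1 - h) u)) / u)² du`, the mean square of the sums of `μ` over the blocks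
`((1 - h) u, u]` -/
noncomputable def B (h x : ℝ) : ℝ := ∫ u in (1:ℝ)..x, ((M u - M ((1 - h) * u)) / u) ^ 2

/-- `B_h(x) / log x → V(h)` as `x → ∞`, for each `0 < h < 1` -/
def IsVariance (V : ℝ → ℝ) : Prop :=
  ∀ h : ℝ, 0 < h → h < 1 → Tendsto (fun x : ℝ => B h x / Real.log x) atTop (𝓝 (V h))

/-- the Riemann Hypothesis holds, all nontrivial zeros are simple and `J(T) ≪ T^(2-β)` -/
def ZeroBound (β : ℝ) : Prop := RHSimple ∧ ∃ C : ℝ, ∀ T : ℝ, 1 ≤ T → J T ≤ C * T ^ (2 - β)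

theorem result :
    (∀ β : ℝ, 0 < β → β < 2 →
      (ZeroBound β ↔ ∃ C : ℝ, ∀ h : ℝ, 0 < h → h < 1 →
        ∀ᶠ x : ℝ in atTop, B h x ≤ C * h ^ β * Real.log x) ∧
      (ZeroBound β ↔ ∃ C h₀ : ℝ, 0 < h₀ ∧ ∀ h : ℝ, 0 < h → h < h₀ →
        ∃ᶠ x : ℝ in atTop, B h x ≤ C * h ^ β * Real.log x)) ∧
    (∀ c : ℝ, (RHSimple ∧ Tendsto (fun T => J T / T) atTop (𝓝 c)) ↔
      ∃ V : ℝ → ℝ, IsVariance V ∧ Tendsto (fun h => V h / h) (𝓝[>] 0) (𝓝 (2 * Real.pi * c))) ∧
    (WeakMertens ↔ ∃ V : ℝ → ℝ, IsVariance V) ∧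
    (∀ V : ℝ → ℝ, IsVariance V → Tendsto V (𝓝[>] 0) (𝓝 0)) := by
  refine ⟨fun β hβ hβ2 => ?_, fun c => Pool.Agent.E8helper14.JM.main3 c, ?_, fun V hV => ?_⟩
  · have h1 : ZeroBound β → ∃ C : ℝ, ∀ h : ℝ, 0 < h → h < 1 →
        ∀ᶠ x : ℝ in atTop, B h x ≤ C * h ^ β * Real.log x := fun h =>
      Pool.Agent.E8helper14.JM.main1 hβ hβ2 h.1 h.2
    have h2 : (∃ C : ℝ, ∀ h : ℝ, 0 < h → h < 1 → ∀ᶠ x : ℝ in atTop, B h x ≤ C * h ^ β * Real.log x) →
        ∃ C h₀ : ℝ, 0 < h₀ ∧ ∀ h : ℝ, 0 < h → h < h₀ →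
          ∃ᶠ x : ℝ in atTop, B h x ≤ C * h ^ β * Real.log x := by
      rintro ⟨C, hC⟩
      exact ⟨C, 1, one_pos, fun h h0 h1 => (hC h h0 h1).frequently⟩
    have h3 : (∃ C h₀ : ℝ, 0 < h₀ ∧ ∀ h : ℝ, 0 < h → h < h₀ →
        ∃ᶠ x : ℝ in atTop, B h x ≤ C * h ^ β * Real.log x) → ZeroBound β := by
      rintro ⟨C, h₀, hh₀, hC⟩
      exact Pool.Agent.E8helper14.JM.main2 hβ hβ2 hh₀ hC
    exact ⟨⟨h1, fun h => h3 (h2 h)⟩, ⟨fun h => h2 (h1 h), h3⟩⟩
  · constructor
    · intro hW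
      obtain ⟨V, hV, -⟩ := Pool.Agent.E8helper14.JM.main4.1 hW
      exact ⟨V, hV⟩
    · rintro ⟨V, hV⟩
      exact (Pool.Agent.E8helper14.JM.lim_WM hV).1
  · have hW := (Pool.Agent.E8helper14.JM.lim_WM hV).1
    obtain ⟨V', hV', h0⟩ := Pool.Agent.E8helper14.JM.main4.1 hW
    refine h0.congr' ?_
    filter_upwards [Pool.Agent.E8helper14.JM.hpos, Pool.Agent.E8helper14.JM.hlt] with h h1 h2
    exact tendsto_nhds_unique (hV' h h1 h2) (hV h h1 h2)

end Pool.Agent.Results.MP_323ce2_nt.BlockVarianceH14
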