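import Pool.Agent.E8helper62.LP.Lim

/-!
# Means of order `p` of the Mertens function and the zeros of the zeta function, `1 ≤ p ≤ 2`

Let `M(u) = ∑_{n ≤ u} μ(n)`, and for `p ≥ 1` let `m_p(x)` be the average of `(|M(u)| / √u)^p` over `[1, x]` with the
weight `du / u`, so that `m_2(x) = I(x) / log x`.  Let `m₊(x)` and `m₋(x)` be the averages of `max(M(u), 0) / √u` and
`max(-M(u), 0) / √u`.  Unconditionally:

* if `1 < p ≤ 2`, `1/p + 1/q = 1` and `m_p(x) ≤ K^p` for arbitrarily large `x` (a set of `x` as sparse as one likes),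
  then the Riemann Hypothesis holds, every nontrivial zero of `ζ` is simple, and `∑_ρ |ρ ζ'(ρ)|^{-q} ≤ K^q`;
* at the end point `p = 1` a bound for one sign is enough: if `m₊(x) ≤ K` for arbitrarily large `x`, or
  `m₋(x) ≤ K` for arbitrarily large `x`, then the Riemann Hypothesis holds, every nontrivial zero is simple and
  `1 / |ρ ζ'(ρ)| ≤ 2 K` for each of them;
* indeed `liminf m_1 = 2 liminf m₊ = 2 liminf m₋` and `limsup m_1 = 2 limsup m₊ = 2 limsup m₋`, in `[0, ∞]`;
* there is `c > 0` such that `m₊(x) ≥ c` and `m₋(x) ≥ c` for all large `x`.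

Idea of the proof: the hypothesis gives a bounded local mean of `|M(u)| / √u` at suitable points near `x`, so the
Fourier coefficients of `M(e^s) e^{-s/2}` over `[0, log x]` at the ordinates of the zeros exist in the limit and equal
`1 / (ρ ζ'(ρ))`; Bessel's inequality for finitely many zeros on `[0, L]` and the method of the three lines give an
inequality of Hausdorff and Young on `[0, L]` with a constant that tends to `1`.  For one sign: `M` has bounded averages
against a positive kernel that decays doubly exponentially, so a one-sided bound controls the two-sided mean up to a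
slightly smaller point; and the alternating sums `∑_{j ≤ x} (-1)^{j-1} j^{-1/2}` converge to a positive number, so the
integral of `M(u) u^{-3/2}` is controlled by the local mean of `|M(u)| / √u`.
-/

set_option autoImplicit false

open Filter Topology MeasureTheory

namespace Pool.Agent.Results.MP_323ce2_nt.MeansOfOrderPH62

/-- the Mertens function `M(u) = ∑_{n ≤ u} μ(n)` -/
noncomputable def M (u : ℝ) : ℝ := ∑ n ∈ Finset.Icc 1 ⌊u⌋₊, ((ArithmeticFunction.moebius n : ℤ) : ℝ)

/-- the mean of `(|M(u)| / √u)^p` over `[1, x]` with the weight `du / u`; for `p = 2` it is `I(x) / log x` -/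
noncomputable def mean (p x : ℝ) : ℝ := (∫ u in (1:ℝ)..x, (|M u| / √u) ^ p / u) / Real.log x

/-- the mean of `max(s M(u), 0) / √u` over `[1, x]` with the weight `du / u`: the positive part of `M` for `s = 1`,
the negative part for `s = -1` -/
noncomputable def meanPart (s x : ℝ) : ℝ := (∫ u in (1:ℝ)..x, max (s * M u) 0 / √u / u) / Real.log x

/-- The nontrivial zeros of the Riemann zeta function. -/
def NT : Set ℂ := {s : ℂ | riemannZeta s = 0 ∧ 0 < s.re ∧ s.re < 1}

theorem result :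
    (∀ p q : ℝ, p.HolderConjugate q → p ≤ 2 → ∀ K : ℝ, 0 ≤ K → (∃ᶠ x : ℝ in atTop, mean p x ≤ K ^ p) →
      (∀ ρ ∈ NT, ρ.re = 1 / 2 ∧ deriv riemannZeta ρ ≠ 0) ∧
      Summable (fun ρ : NT => (1 / ‖(ρ : ℂ) * deriv riemannZeta ρ‖) ^ q) ∧
      ∑' ρ : NT, (1 / ‖(ρ : ℂ) * deriv riemannZeta ρ‖) ^ q ≤ K ^ q) ∧
    (∀ s : ℝ, s = 1 ∨ s = -1 →
      (∀ K : ℝ, (∃ᶠ x : ℝ in atTop, meanPart s x ≤ K) →
        ∀ ρ ∈ NT, ρ.re = 1 / 2 ∧ deriv riemannZeta ρ ≠ 0 ∧ 1 / ‖ρ * deriv riemannZeta ρ‖ ≤ 2 * K) ∧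
      liminf (fun x : ℝ => ENNReal.ofReal (mean 1 x)) atTop =
        2 * liminf (fun x : ℝ => ENNReal.ofReal (meanPart s x)) atTop ∧
      limsup (fun x : ℝ => ENNReal.ofReal (mean 1 x)) atTop =
        2 * limsup (fun x : ℝ => ENNReal.ofReal (meanPart s x)) atTop ∧
      ∃ c : ℝ, 0 < c ∧ ∀ᶠ x : ℝ in atTop, c ≤ meanPart s x) := by
  have hpart : ∀ s x : ℝ, 1 ≤ x → ∫ u in (1:ℝ)..x, max (s * M u) 0 / √u / u = E8helper62.LP.As s (Real.log x) :=
    fun s x hx => E8helper62.LP.cov_s s hx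
  have habs : ∀ x : ℝ, 1 ≤ x → ∫ u in (1:ℝ)..x, (|M u| / √u) ^ (1:ℝ) / u = E8helper62.LP.A1 (Real.log x) :=
    fun x hx => E8helper62.LP.abs_one hx
  have two : ENNReal.ofReal 2 = 2 := by simp
  have half : 2 * ENNReal.ofReal (1 / 2) = 1 := by
    rw [← two, ← ENNReal.ofReal_mul (by norm_num)]; norm_num
  have hzeros : ∀ s : ℝ, s = 1 ∨ s = -1 → ∀ K : ℝ, (∃ᶠ x : ℝ in atTop, meanPart s x ≤ K) →
      ∀ ρ ∈ NT, ρ.re = 1 / 2 ∧ deriv riemannZeta ρ ≠ 0 ∧ 1 / ‖ρ * deriv riemannZeta ρ‖ ≤ 2 * K := by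
    intro s hs K h ρ hρ
    have h1 := (E8helper62.LP.trans_freq (hpart s)).1 h
    obtain ⟨C, h2⟩ := E8helper62.LP.os_freq hs h1
    have h3 := E8helper62.LP.zeros_of_A1 h2 ρ hρ
    refine ⟨h3.1, h3.2, ?_⟩
    rw [← E8helper62.LP.norm_ww]
    exact E8helper62.LP.os_ww_le hs h1 h3.1 hρ.1
  refine ⟨fun p q hpq hp K hK h => ?_, fun s hs => ⟨hzeros s hs, le_antisymm ?_ ?_, le_antisymm ?_ ?_, ?_⟩⟩
  · refine E8helper62.LP.fin_p hpq hp hK ((h.and_eventually (eventually_gt_atTop 1)).mono fun x hx => ?_)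
    have hlog : 0 < Real.log x := Real.log_pos hx.2
    have h1 := hx.1
    unfold mean at h1
    rw [div_le_iff₀ hlog] at h1
    exact h1
  · have := E8helper62.LP.liminf_cmp (F := mean 1) (G := meanPart s) (c := 2) two_pos fun K ε hε h => by
      have h1 := (E8helper62.LP.trans_freq (hpart s)).1 h
      exact (E8helper62.LP.trans_freq habs).2 (E8helper62.LP.freq_12 hs hε h1)
    rwa [two] at this
  · have := E8helper62.LP.liminf_cmp (F := meanPart s) (G := mean 1) (c := 1 / 2) (by norm_num) fun K ε hε h => by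
      have h1 := (E8helper62.LP.trans_freq habs).1 h
      exact (E8helper62.LP.trans_freq (hpart s)).2 (E8helper62.LP.freq_21 hs hε h1)
    calc _ ≤ 2 * (ENNReal.ofReal (1 / 2) * liminf (fun x : ℝ => ENNReal.ofReal (mean 1 x)) atTop) := by gcongr
      _ = _ := by rw [← mul_assoc, half, one_mul]
  · have := E8helper62.LP.limsup_cmp (F := mean 1) (G := meanPart s) (c := 2) two_pos fun K ε hε h => by
      have h1 := (E8helper62.LP.trans_ev (hpart s)).1 h
      exact (E8helper62.LP.trans_ev habs).2 (E8helper62.LP.ev_12 hs hε h1)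
    rwa [two] at this
  · have := E8helper62.LP.limsup_cmp (F := meanPart s) (G := mean 1) (c := 1 / 2) (by norm_num) fun K ε hε h => by
      have h1 := (E8helper62.LP.trans_ev habs).1 h
      exact (E8helper62.LP.trans_ev (hpart s)).2 (E8helper62.LP.ev_21 hs hε h1)
    calc _ ≤ 2 * (ENNReal.ofReal (1 / 2) * limsup (fun x : ℝ => ENNReal.ofReal (mean 1 x)) atTop) := by gcongr
      _ = _ := by rw [← mul_assoc, half, one_mul]
  · obtain ⟨ρ, hz, h0, h1⟩ := H313.TK.exists_zero
    have hρ : ρ ∈ NT := ⟨hz, by linarith, h1⟩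
    by_contra hcon
    push Not at hcon
    have hf : ∀ c : ℝ, 0 < c → ∃ᶠ x : ℝ in atTop, meanPart s x ≤ c := fun c hc =>
      (hcon c hc).mono fun x hx => hx.le
    have h2 := hzeros s hs 1 (hf 1 one_pos) ρ hρ
    have hρ0 : ρ ≠ 0 := by rintro rfl; norm_num at h0
    have h3 : 0 < 1 / ‖ρ * deriv riemannZeta ρ‖ := by
      have : 0 < ‖ρ * deriv riemannZeta ρ‖ := norm_pos_iff.2 (mul_ne_zero hρ0 h2.2.1)
      positivity
    have h4 := (hzeros s hs (1 / ‖ρ * deriv riemannZeta ρ‖ / 4) (hf _ (by positivity)) ρ hρ).2.2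
    linarith

end Pool.Agent.Results.MP_323ce2_nt.MeansOfOrderPH62
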