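import Pool.Agent.E8helper68.WP.WP10

/-!
# The weak Mertens hypothesis can be read off at the primes

Let `M(u) = ∑_{n ≤ u} μ(n)`, `f(v) = M(e^v) e^{-v/2}` and `P(x) = ∑_{p ≤ x} log p (M(p)/p)²`, the mean square of
`M(p)/√p` over the primes with the weights `log p / p` (of total mass `~ log x`).  Unconditionally:

* the weak Mertens hypothesis `∫_1^x (M(u)/u)² du ≤ C log x` is equivalent to `P(x) ≤ C log x` for all `x ≥ 2`,
  and also to `P(x) ≤ C log x` for arbitrarily large `x`;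
* if it holds then `P(x)/log x` tends to `∑_ρ 1/|ρ ζ'(ρ)|²`, and if it fails then `P(x)/log x` tends to infinity;
* `M(p)/√p`, `p` prime, has a limiting distribution for the weights `log p / p` if and only if `f` has one, which
  happens if and only if the weak Mertens hypothesis holds, and then the two limiting distributions are the same
  (convergence for all continuous test functions of at most quadratic growth);
* if it holds then, for some `η > 0`, a positive proportion of the primes `p` (with the weights `log p / p`)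
  satisfies `M(p) > η √p`, and a positive proportion satisfies `M(p) < -η √p`.
-/

set_option autoImplicit false

open Filter Topology MeasureTheory

namespace Pool.Agent.Results.MP_323ce2_nt.MertensAtPrimesH68

/-- the Mertens function -/
noncomputable def M (u : ℝ) : ℝ := ∑ n ∈ Finset.Icc 1 ⌊u⌋₊, ((ArithmeticFunction.moebius n : ℤ) : ℝ)

/-- the weak Mertens hypothesis -/
def WeakMertens : Prop := ∃ C : ℝ, ∀ x : ℝ, 2 ≤ x → ∫ u in (1:ℝ)..x, (M u / u) ^ 2 ≤ C * Real.log x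

/-- the primes `p ≤ x` -/
noncomputable def primes (x : ℝ) : Finset ℕ := (Finset.Icc 1 ⌊x⌋₊).filter Nat.Prime

/-- `P(x) = ∑_{p ≤ x} log p (M(p)/p)²` -/
noncomputable def P (x : ℝ) : ℝ := ∑ p ∈ primes x, Real.log p * (M p / p) ^ 2

/-- `f(v) = M(e^v) e^{-v/2}` -/
noncomputable def f (v : ℝ) : ℝ := M (Real.exp v) * Real.exp (-(v / 2))

/-- the mean of `g` over `[0, V]` -/
noncomputable def mean (g : ℝ → ℝ) (V : ℝ) : ℝ := (∫ v in (0:ℝ)..V, g v) / V

/-- the mean of `F` over the primes up to `x`, with the weights `log p / p` -/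
noncomputable def primeMean (F : ℕ → ℝ) (x : ℝ) : ℝ := (∑ p ∈ primes x, Real.log p / p * F p) / Real.log x

/-- `μ` is the limiting distribution of `f`, that is, of `M(u)/√u` on the logarithmic scale -/
def IsLimitLaw (μ : ProbabilityMeasure ℝ) : Prop := ∀ φ : ℝ → ℝ, Continuous φ →
  (∃ C : ℝ, ∀ t, |φ t| ≤ C * (1 + t ^ 2)) → Integrable φ (μ : Measure ℝ) ∧
    Tendsto (mean fun v => φ (f v)) atTop (𝓝 (∫ t, φ t ∂(μ : Measure ℝ)))

/-- `μ` is the limiting distribution of `M(p)/√p` over the primes -/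
def IsPrimeLaw (μ : ProbabilityMeasure ℝ) : Prop := ∀ φ : ℝ → ℝ, Continuous φ →
  (∃ C : ℝ, ∀ t, |φ t| ≤ C * (1 + t ^ 2)) → Integrable φ (μ : Measure ℝ) ∧
    Tendsto (primeMean fun p => φ (M p / √(p:ℝ))) atTop (𝓝 (∫ t, φ t ∂(μ : Measure ℝ)))

/-- the nontrivial zeros of the Riemann zeta function -/
def NT : Set ℂ := {s : ℂ | riemannZeta s = 0 ∧ 0 < s.re ∧ s.re < 1}

theorem result :
    (∀ μ : ProbabilityMeasure ℝ, IsLimitLaw μ ↔ IsPrimeLaw μ) ∧
    (WeakMertens ↔ ∃ μ : ProbabilityMeasure ℝ, IsPrimeLaw μ) ∧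
    (WeakMertens ↔ ∃ C : ℝ, ∀ x : ℝ, 2 ≤ x → P x ≤ C * Real.log x) ∧
    (WeakMertens ↔ ∃ C : ℝ, ∃ᶠ x : ℝ in atTop, P x ≤ C * Real.log x) ∧
    (WeakMertens → Tendsto (fun x : ℝ => P x / Real.log x) atTop
        (𝓝 (∑' ρ : NT, 1 / ‖(ρ : ℂ) * deriv riemannZeta ρ‖ ^ 2)) ∧
      ∃ η c : ℝ, 0 < η ∧ 0 < c ∧ ∀ᶠ x : ℝ in atTop,
        c * Real.log x ≤ ∑ p ∈ (Finset.Icc 1 ⌊x⌋₊).filter (fun p : ℕ => p.Prime ∧ η * √(p:ℝ) < M p),
          Real.log p / p ∧
        c * Real.log x ≤ ∑ p ∈ (Finset.Icc 1 ⌊x⌋₊).filter (fun p : ℕ => p.Prime ∧ M p < -(η * √(p:ℝ))),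
          Real.log p / p) ∧
    (¬ WeakMertens → Tendsto (fun x : ℝ => P x / Real.log x) atTop atTop) :=
  E8helper68.WP.main

end Pool.Agent.Results.MP_323ce2_nt.MertensAtPrimesH68
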