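import Pool.Agent.E8helper84.RM.RQ2

/-!
# Typical twists of the Möbius function satisfy the weak Mertens bound with `o(log x)`

For a function `f` put `M_f(u) = ∑_{n ≤ u} μ(n) f(n)` and `I_f(x) = ∫_1^x |M_f(u)/u|² du`; the weak Mertens
hypothesis is `I_1(x) ≤ C log x` for all `x ≥ 2`. We show:

1. Let `χ` be a random multiplicative function whose values at the primes are independent, of mean zero and
   bounded by `1`. For every `λ > 0`, outside an event of probability at most `1/λ`,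
   `I_χ(x) ≤ λ ∏_{p ≤ x} (1 + E|χ(p)|²/p)` for all `x ≥ 1` simultaneously.
2. If moreover `∑_p (1 - E|χ(p)|²)/p` and `∑_p |E χ(p)² - m|/p` converge for some complex number `m`, then
   `I_χ(x) = o(log x)` almost surely. The mean of `I_χ(x)` is of exact order `log x`. Examples: independent values
   with one and the same law on the unit circle with mean zero (such as uniform signs, uniform `k`-th roots of
   unity, the uniform distribution of the circle), and the random model of the real characters.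
3. For every `ε > 0` there is `x₀` such that for every `X`, for all large `T`, the functions `f(n) = n^(-it)`
   satisfy `I_f(x) ≤ ε log x` for all `x₀ ≤ x ≤ X`, for all `t` in `[0, T]` outside a set of measure at most `ε T`;
   the same for the Dirichlet characters modulo `q`, for all large `q`, up to at most `ε φ(q)` of them, and for the
   real characters `n ↦ (d/n)` (`n` odd), `1 ≤ d ≤ Y`, `Y` large, up to at most `ε Y` of them.
4. There is an absolute constant `C` such that for every `X` and `λ > 0`, for all large `q`, all but at most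
   `φ(q)/λ` of the characters modulo `q` satisfy `I_χ(x) ≤ λ C log x` for all `2 ≤ x ≤ X`; the same for `n^(-it)`
   and for the real characters.
5. For every `ε > 0` there is `C_ε` such that for every `q ≥ 3` and `λ > 0` all but at most `φ(q)/λ` of the
   characters modulo `q` satisfy `I_χ(x) ≤ λ C_ε log x (1 + log log x)^(1+ε)` for all `3 ≤ x ≤ q`.

The proof: let `A_N(u)` be the sum of `μ(n) χ(n)` over the `n ≤ u` all of whose prime factors are at most `N`, and
`Z_N = ∫_1^∞ |A_N(u)/u|² du / ∏_{p ≤ N} (1 + E|χ(p)|²/p)`, a nonnegative martingale which bounds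
`I_χ(x) / ∏_{p ≤ x} (1 + E|χ(p)|²/p)` for all `x < N + 1`; this gives 1 and 4 by Doob's maximal inequality. By
Plancherel `Z_N` is the total mass on the critical line of the density `|F_N(1/2 + it)|² / E |F_N|²` with respect
to `dt / (2π |1/2 + it|²)`. Under the law tilted by this density the Euler product at the distance `1 / log N` to
the right of the line is so large that `Z_N` cannot stay bounded (it is at most `|s|² Q / 2σ`, by Cauchy's
inequality), so for almost every `t` the tilted law and the law are singular, and `Z_N` tends to `0` almost surely.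
(For `t ≠ 0` the sums `∑_{p ≤ N} p^(-1-it)` are bounded, so the second moments of the rotated values
`χ(p) p^(-it)` play no role in the limit.) For the characters modulo `q`, whose values vanish at the primes
dividing `q`, a compactness argument over all sets of primes makes this uniform in `q`.
-/

set_option autoImplicit false

open Filter Topology MeasureTheory ProbabilityTheory

namespace Pool.Agent.Results.MP_323ce2_nt.TypicalTwistsLittleOH84

/-- `M_f(u) = ∑_{n ≤ u} μ(n) f(n)`; for `f = 1` this is the Mertens function -/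
noncomputable def M (f : ℕ → ℂ) (u : ℝ) : ℂ :=
  ∑ n ∈ Finset.Icc 1 ⌊u⌋₊, ((ArithmeticFunction.moebius n : ℤ) : ℂ) * f n

/-- `I_f(x) = ∫_1^x |M_f(u)|² / u² du` -/
noncomputable def I (f : ℕ → ℂ) (x : ℝ) : ℝ := ∫ u in (1 : ℝ)..x, ‖M f u‖ ^ 2 / u ^ 2

/-- `χ` is a random multiplicative function whose values at the primes are independent random variables of
mean zero and of absolute value at most `1` -/
structure RandomTwist {Ω : Type} [MeasurableSpace Ω] (P : Measure Ω) (χ : Ω → ℕ → ℂ) : Prop where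
  map_one : ∀ ω, χ ω 1 = 1
  map_mul : ∀ ω m n, Nat.Coprime m n → χ ω (m * n) = χ ω m * χ ω n
  meas : ∀ p : ℕ, p.Prime → Measurable (fun ω => χ ω p)
  bound : ∀ p : ℕ, p.Prime → ∀ ω, ‖χ ω p‖ ≤ 1
  mean : ∀ p : ℕ, p.Prime → ∫ ω, χ ω p ∂P = 0
  indep : iIndepFun (fun (p : Nat.Primes) ω => χ ω p) P

/-- `∑_p (1 - E|χ(p)|²)/p` converges, and `∑_p |E χ(p)² - m|/p` converges for a complex number `m` -/
def Critical {Ω : Type} [MeasurableSpace Ω] (P : Measure Ω) (χ : Ω → ℕ → ℂ) : Prop :=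
  (Summable fun p : Nat.Primes => (1 - ∫ ω, ‖χ ω p‖ ^ 2 ∂P) / ((p : ℕ) : ℝ)) ∧
  ∃ m : ℂ, Summable fun p : Nat.Primes => ‖∫ ω, (χ ω p) ^ 2 ∂P - m‖ / ((p : ℕ) : ℝ)

/-- `n^(-it)` -/
noncomputable def shift (t : ℝ) (n : ℕ) : ℂ := (n : ℂ) ^ (-(t : ℂ) * Complex.I)

/-- the real character `n ↦ (d/n)`, `n` odd (Jacobi symbol), and `0` at the even numbers -/
noncomputable def realChar (d n : ℕ) : ℂ := if n % 2 = 1 then ((jacobiSym (d : ℤ) n : ℤ) : ℂ) else 0

open Pool.Agent.E8helper84.RM in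
lemma I_eq (f : ℕ → ℂ) : I f = If f := rfl

open Pool.Agent.E8helper84.RM in
lemma rnd_of {Ω : Type} [MeasurableSpace Ω] {P : Measure Ω} {χ : Ω → ℕ → ℂ} (h : RandomTwist P χ) :
    Rnd P (fun n ω => χ ω n) := ⟨h.meas, h.bound, h.mean, h.indep⟩

open Pool.Agent.E8helper84.RM in
lemma If_of {Ω : Type} [MeasurableSpace Ω] {P : Measure Ω} {χ : Ω → ℕ → ℂ} (h : RandomTwist P χ) (ω : Ω)
    {x : ℝ} (hx : 1 ≤ x) : I (χ ω) x = Pool.Agent.E8helper84.RM.I (fun n => χ ω n) x := by
  rw [I_eq]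
  exact If_eq (N := ⌊x⌋₊) (fun n _ hs => mult_prod (h.map_one ω) (h.map_mul ω) hs) hx le_rfl

open Pool.Agent.E8helper84.RM in
lemma sharp {Ω : Type} [MeasurableSpace Ω] {P : Measure Ω} [IsProbabilityMeasure P] {χ : Ω → ℕ → ℂ}
    (h : RandomTwist P χ) {l : ℝ} (hl : 0 < l) :
    P {ω | ∃ x : ℝ, 1 ≤ x ∧ l * ∏ p ∈ (Finset.Icc 1 ⌊x⌋₊).filter Nat.Prime,
      (1 + (∫ ω', ‖χ ω' p‖ ^ 2 ∂P) / p) < I (χ ω) x} ≤ ENNReal.ofReal (1 / l) := by
  have hz := rnd_of h
  have hsub : {ω | ∃ x : ℝ, 1 ≤ x ∧ l * ∏ p ∈ (Finset.Icc 1 ⌊x⌋₊).filter Nat.Prime,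
      (1 + (∫ ω', ‖χ ω' p‖ ^ 2 ∂P) / p) < I (χ ω) x} ⊆
      ⋃ n : ℕ, {ω | ∃ k, k ≤ n ∧ l ≤ Zm P (fun n ω => χ ω n) k ω} := by
    rintro ω ⟨x, hx, hlt⟩
    rw [Set.mem_iUnion]
    refine ⟨⌊x⌋₊, ⌊x⌋₊, le_rfl, ?_⟩
    rw [If_of h ω hx] at hlt
    have h1 : Pool.Agent.E8helper84.RM.I (fun n => χ ω n) x ≤ Q ⌊x⌋₊ (fun n => χ ω n) :=
      I_le_Q _ hx (Nat.lt_floor_add_one x)
    have hV := V_pos P (fun n ω => χ ω n) ⌊x⌋₊
    unfold Zm
    rw [le_div_iff₀ hV]
    exact (hlt.le.trans h1)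
  refine (measure_mono hsub).trans ?_
  rw [Directed.measure_iUnion]
  · exact iSup_le fun n => maximal hz hl n
  · refine directed_of_isDirected_le ?_
    intro a b hab ω hω
    obtain ⟨k, hk, h⟩ := hω
    exact ⟨k, hk.trans hab, h⟩

/-- finite sums over the primes are bounded by the series -/
lemma sum_le {g : ℕ → ℝ} (h0 : ∀ p : ℕ, p.Prime → 0 ≤ g p) (hs : Summable fun p : Nat.Primes => g (p : ℕ))
    (N : ℕ) : ∑ p ∈ (Finset.Icc 1 N).filter Nat.Prime, g p ≤ ∑' p : Nat.Primes, g (p : ℕ) := by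
  have h1 : ∑ p ∈ (Finset.Icc 1 N).filter Nat.Prime, g p =
      ∑ p ∈ (Finset.Icc 1 N).subtype Nat.Prime, g (p : ℕ) :=
    (Finset.sum_subtype_eq_sum_filter g).symm
  rw [h1]
  have hs' : Summable fun p : {p : ℕ // p.Prime} => g (p : ℕ) := hs
  have h2 : ∑ p ∈ (Finset.Icc 1 N).subtype Nat.Prime, g (p : ℕ) ≤ ∑' p : {p : ℕ // p.Prime}, g (p : ℕ) :=
    hs'.sum_le_tsum ((Finset.Icc 1 N).subtype Nat.Prime) (fun p _ => h0 p p.2)
  exact h2

lemma little {Ω : Type} [MeasurableSpace Ω] {P : Measure Ω} [IsProbabilityMeasure P] {χ : Ω → ℕ → ℂ}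
    (h : RandomTwist P χ) (hc : Critical P χ) :
    ∀ᵐ ω ∂P, Tendsto (fun x : ℝ => I (χ ω) x / Real.log x) atTop (𝓝 0) := by
  obtain ⟨h1, m, h2⟩ := hc
  have hz := rnd_of h
  have hle : ∀ p : ℕ, p.Prime → ∫ ω, ‖χ ω p‖ ^ 2 ∂P ≤ 1 := by
    intro p hp
    have h3 : ∀ ω, ‖χ ω p‖ ^ 2 ≤ 1 := fun ω => pow_le_one₀ (norm_nonneg _) (h.bound p hp ω)
    calc ∫ ω, ‖χ ω p‖ ^ 2 ∂P ≤ ∫ _ω, (1 : ℝ) ∂P :=
          integral_mono_of_nonneg (Eventually.of_forall fun ω => by positivity) (integrable_const _)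
            (Eventually.of_forall h3)
      _ = 1 := by simp
  have key := Pool.Agent.E8helper84.RP.transfer hz (m := m)
    (fun N => sum_le (g := fun p : ℕ => (1 - ∫ ω, ‖χ ω p‖ ^ 2 ∂P) / (p : ℝ))
      (fun p hp => div_nonneg (sub_nonneg.2 (hle p hp)) (Nat.cast_nonneg p)) h1 N)
    (fun N => sum_le (g := fun p : ℕ => ‖∫ ω, (χ ω p) ^ 2 ∂P - m‖ / (p : ℝ))
      (fun p _ => div_nonneg (norm_nonneg _) (Nat.cast_nonneg p)) h2 N)
  filter_upwards [key] with ω hω
  refine hω.congr' ?_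
  filter_upwards [eventually_ge_atTop (1 : ℝ)] with x hx
  rw [If_of h ω hx]

open Pool.Agent.E8helper84.RM in
lemma shift_eq (t : ℝ) {n : ℕ} (hn : n ≠ 0) : shift t n = sh t n := by
  unfold shift sh
  rw [Complex.cpow_def_of_ne_zero (by exact_mod_cast hn)]
  congr 1
  rw [← Complex.natCast_log]
  push_cast
  ring

open Pool.Agent.E8helper84.RM in
lemma If_shift (t x : ℝ) : I (shift t) x = If (sh t) x := by
  unfold I If
  refine intervalIntegral.integral_congr fun u _ => ?_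
  have : M (shift t) u = Mf (sh t) u := by
    unfold M Mf
    refine Finset.sum_congr rfl fun n hn => ?_
    rw [Finset.mem_Icc] at hn
    rw [shift_eq t (by omega)]
  simp only [this]

open scoped Classical in
/-- the number of Dirichlet characters `χ` modulo `q` with `c log x < I_χ(x)` for some `x` in `[a, X]` -/
noncomputable def charFail (q : ℕ) (a X c : ℝ) : ℕ :=
  (Finset.univ.filter fun χ : DirichletCharacter ℂ q =>
    ∃ x : ℝ, a ≤ x ∧ x ≤ X ∧ c * Real.log x < I (fun n => χ n) x).card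

/-- the measure of the set of all `t` in `[0, T]` such that `c log x < I_f(x)`, `f(n) = n^(-it)`, for some `x` in
`[a, X]` -/
noncomputable def shiftFail (T a X c : ℝ) : ENNReal :=
  volume {t : ℝ | 0 ≤ t ∧ t ≤ T ∧ ∃ x : ℝ, a ≤ x ∧ x ≤ X ∧ c * Real.log x < I (shift t) x}

open scoped Classical in
/-- the number of the `d`, `1 ≤ d ≤ Y`, with `c log x < I_f(x)`, `f(n) = (d/n)`, for some `x` in `[a, X]` -/
noncomputable def realFail (Y : ℕ) (a X c : ℝ) : ℕ :=
  ((Finset.Icc 1 Y).filter fun d : ℕ => ∃ x : ℝ, a ≤ x ∧ x ≤ X ∧ c * Real.log x < I (realChar d) x).card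

open scoped Classical in
/-- **Theorem.** -/
theorem result :
    -- random twists
    (∀ (Ω : Type) [MeasurableSpace Ω] (P : Measure Ω) [IsProbabilityMeasure P] (χ : Ω → ℕ → ℂ),
      RandomTwist P χ →
        (∀ l : ℝ, 0 < l → P {ω | ∃ x : ℝ, 1 ≤ x ∧ l * ∏ p ∈ (Finset.Icc 1 ⌊x⌋₊).filter Nat.Prime,
          (1 + (∫ ω', ‖χ ω' p‖ ^ 2 ∂P) / p) < I (χ ω) x} ≤ ENNReal.ofReal (1 / l)) ∧
        (Critical P χ → ∀ᵐ ω ∂P, Tendsto (fun x : ℝ => I (χ ω) x / Real.log x) atTop (𝓝 0))) ∧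
    -- families, little-o
    (∀ ε : ℝ, 0 < ε → ∃ x₀ : ℝ, 2 ≤ x₀ ∧ ∀ X : ℝ,
      (∀ᶠ q : ℕ in atTop, (charFail q x₀ X ε : ℝ) ≤ ε * q.totient) ∧
      (∀ᶠ T : ℝ in atTop, shiftFail T x₀ X ε ≤ ENNReal.ofReal (ε * T)) ∧
      (∀ᶠ Y : ℕ in atTop, (realFail Y x₀ X ε : ℝ) ≤ ε * Y)) ∧
    -- families, big-O
    (∃ C : ℝ, 0 < C ∧ ∀ X l : ℝ, 0 < l →
      (∀ᶠ q : ℕ in atTop, (charFail q 2 X (l * C) : ℝ) ≤ q.totient / l) ∧
      (∀ᶠ T : ℝ in atTop, shiftFail T 2 X (l * C) ≤ ENNReal.ofReal (T / l)) ∧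
      (∀ᶠ Y : ℕ in atTop, (realFail Y 2 X (l * C) : ℝ) ≤ Y / l)) ∧
    -- all characters modulo `q`, in the full range `x ≤ q`
    (∀ ε : ℝ, 0 < ε → ∃ C' : ℝ, 0 < C' ∧ ∀ q : ℕ, 3 ≤ q → ∀ l : ℝ, 0 < l →
      ((Finset.univ.filter fun χ : DirichletCharacter ℂ q => ∃ x : ℝ, 3 ≤ x ∧ x ≤ q ∧
        l * C' * Real.log x * (1 + Real.log (Real.log x)) ^ (1 + ε) < I (fun n => χ n) x).card : ℝ) ≤
          q.totient / l) := by
  refine ⟨?_, ?_, ?_, ?_⟩
  · intro Ω _ P _ χ h
    exact ⟨fun l hl => sharp h hl, fun hc => little h hc⟩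
  · intro ε hε
    obtain ⟨x1, h1, hx1⟩ := Pool.Agent.E8helper84.RQ.chars3 hε
    obtain ⟨x2, h2, hx2⟩ := Pool.Agent.E8helper84.RM.shifts2 hε
    obtain ⟨x3, h3, hx3⟩ := Pool.Agent.E8helper84.RP.reals2 hε
    refine ⟨max x1 (max x2 x3), h1.trans (le_max_left _ _), fun X => ⟨?_, ?_, ?_⟩⟩
    · filter_upwards [hx1 X] with q hq
      refine le_trans ?_ hq
      unfold charFail
      norm_cast
      refine Finset.card_le_card ?_
      intro χ hχ
      obtain ⟨a, x, b, c, d⟩ := Finset.mem_filter.1 hχ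
      exact Finset.mem_filter.2 ⟨a, x, (le_max_left _ _).trans b, c, d⟩
    · filter_upwards [hx2 X] with T hT
      refine le_trans ?_ hT
      unfold shiftFail
      refine measure_mono ?_
      rintro t ⟨a, b, x, c, d, e⟩
      refine ⟨a, b, x, ((le_max_left _ _).trans (le_max_right _ _)).trans c, d, ?_⟩
      rw [← If_shift]
      exact e
    · filter_upwards [hx3 X] with Y hY
      refine le_trans ?_ hY
      unfold realFail
      norm_cast
      refine Finset.card_le_card ?_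
      intro d hd
      obtain ⟨a, x, b, c, e⟩ := Finset.mem_filter.1 hd
      exact Finset.mem_filter.2 ⟨a, x, ((le_max_right _ _).trans (le_max_right _ _)).trans b, c, e⟩
  · obtain ⟨C, hC, hp⟩ := Pool.Agent.E8helper84.RM.prod_bound
    refine ⟨4 * C, by positivity, fun X l hl => ⟨?_, ?_, ?_⟩⟩
    · exact Pool.Agent.E8helper84.RM.chars hC hp X hl
    · filter_upwards [Pool.Agent.E8helper84.RM.shifts hC hp X hl] with T hT
      unfold shiftFail
      simp only [If_shift]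
      exact hT
    · exact Pool.Agent.E8helper84.RM.reals hC hp X hl
  · intro ε hε
    exact Pool.Agent.E8helper84.RM.chars_full hε

end Pool.Agent.Results.MP_323ce2_nt.TypicalTwistsLittleOH84
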